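import Pool.Agent.H288R2.Mixed6
import Pool.Agent.Helper431.CycleIso

set_option autoImplicit false

namespace Pool.Agent.Results.MP_ca4ce9_co.MixedDimBound

open SimpleGraph

universe u

/-- Distance from a vertex `w` to an edge `uv`: the minimum of `d(w,u)` and `d(w,v)`. -/
noncomputable def edgeDist {V : Type u} (G : SimpleGraph V) (w : V) (e : Sym2 V) : ℕ :=
  Sym2.lift ⟨fun a b => min (G.dist w a) (G.dist w b), fun _ _ => min_comm _ _⟩ e

/-- Distance from a vertex `w` to an element of `V(G) ∪ E(G)`. -/
noncomputable def elemDist {V : Type u} (G : SimpleGraph V) (w : V) : V ⊕ G.edgeSet → ℕ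
  | Sum.inl v => G.dist w v
  | Sum.inr e => edgeDist G w e

/-- `S` is a mixed resolving set. -/
def IsMixedResolving {V : Type u} (G : SimpleGraph V) (S : Finset V) : Prop :=
  ∀ x y : V ⊕ G.edgeSet, x ≠ y → ∃ s ∈ S, elemDist G s x ≠ elemDist G s y

/-- The mixed metric dimension. -/
noncomputable def mdim {V : Type u} (G : SimpleGraph V) : ℕ :=
  sInf {k : ℕ | ∃ S : Finset V, S.card = k ∧ IsMixedResolving G S}

/-- The cyclomatic number `c(G) = |E(G)| - |V(G)| + 1`. -/
noncomputable def cyclomatic {V : Type u} (G : SimpleGraph V) : ℤ :=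
  (G.edgeSet.ncard : ℤ) - (Nat.card V : ℤ) + 1

/-- `G` is 2-connected: connected, at least three vertices, no cut-vertex. -/
structure TwoConnected {V : Type u} (G : SimpleGraph V) : Prop where
  connected : G.Connected
  three_le : 3 ≤ Nat.card V
  no_cut_vertex : ∀ v : V, (G.induce ({v}ᶜ : Set V)).Connected

/-- `G` is a cycle `C_n`, `n ≥ 3`. -/
def IsCycleGraph {V : Type u} (G : SimpleGraph V) : Prop :=
  ∃ n : ℕ, 3 ≤ n ∧ Nonempty (G ≃g cycleGraph n)

theorem noCut_of_twoConnected {V : Type u} {G : SimpleGraph V} (h : TwoConnected G) :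
    Pool.Agent.H288R2.Mixed.NoCut G := by
  intro q A hq ⟨a, ha⟩ hb t ht
  have haq : a ≠ q := fun h' => hq (h' ▸ ha)
  have hreach := (h.no_cut_vertex q).preconnected ⟨a, by simpa using haq⟩ ⟨t, by simpa using ht⟩
  obtain ⟨w⟩ := hreach
  have key : ∀ (x y : ({q}ᶜ : Set V)) (w : (G.induce ({q}ᶜ : Set V)).Walk x y),
      A x.1 → A y.1 := by
    intro x y w
    induction w with
    | nil => exact id
    | cons hadj _ ih =>
      rename_i u v _ _
      intro hx
      apply ih
      by_contra hv
      have := hb v.1 u.1 (by simpa using hadj.symm) hv hx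
      exact v.2 (by simpa using this)
  exact key _ _ w ha

/-- **The full answer to the question.**  Every 2-connected graph that is not a cycle satisfies
`mdim(G) ≤ 2 c(G)`. -/
theorem result (V : Type u) [Fintype V] (G : SimpleGraph V) (hG : TwoConnected G)
    (hcyc : ¬ IsCycleGraph G) :
    (∃ S : Finset V, S.card = mdim G ∧ IsMixedResolving G S) ∧
      (mdim G : ℤ) ≤ 2 * cyclomatic G := by
  classical
  have hcut := noCut_of_twoConnected hG
  have h3 : 3 ≤ Fintype.card V := by
    rw [← Nat.card_eq_fintype_card]; exact hG.three_le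
  have hdeg := Pool.Agent.H288R2.Mixed.degree_ge hG.connected hcut h3
  have hdeg3 : ∃ v, 3 ≤ G.degree v := by
    by_contra hcon
    push Not at hcon
    obtain ⟨n, ⟨e⟩⟩ := Pool.Agent.Helper431.exists_iso_cycleGraph hG.connected hdeg
      (fun v => by have := hcon v; omega)
    refine hcyc ⟨n, ?_, ⟨e⟩⟩
    have := Fintype.card_congr e.toEquiv
    rw [Fintype.card_fin] at this
    omega
  obtain ⟨S, hcard, hvv, hve, hee⟩ :=
    Pool.Agent.H288R2.Mixed.main hG.connected hcut h3 hdeg3
  have hS : IsMixedResolving G S := by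
    intro x y hxy
    rcases x with x | ⟨e, he⟩ <;> rcases y with y | ⟨f, hf⟩
    · exact hvv x y (fun h => hxy (by rw [h]))
    · induction f with
      | _ a b => exact hve x a b hf
    · induction e with
      | _ a b =>
        obtain ⟨s, hs, h⟩ := hve y a b he
        exact ⟨s, hs, Ne.symm h⟩
    · induction e with
      | _ a b =>
        induction f with
        | _ c d =>
          refine hee a b c d he hf ?_ ?_
          · rintro ⟨rfl, rfl⟩; exact hxy rfl
          · rintro ⟨rfl, rfl⟩
            apply hxy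
            congr 2
            exact Sym2.eq_swap
  have hne : {k : ℕ | ∃ S : Finset V, S.card = k ∧ IsMixedResolving G S}.Nonempty :=
    ⟨S.card, S, rfl, hS⟩
  refine ⟨Nat.sInf_mem hne, ?_⟩
  have hle : mdim G ≤ S.card := Nat.sInf_le ⟨S, rfl, hS⟩
  have e1 : (G.edgeSet.ncard : ℤ) = G.edgeFinset.card := by
    rw [Set.ncard_eq_toFinset_card', ← SimpleGraph.edgeFinset]
  have e2 : (Nat.card V : ℤ) = Fintype.card V := by
    rw [Nat.card_eq_fintype_card]
  unfold cyclomatic
  rw [e1, e2]
  omega

end Pool.Agent.Results.MP_ca4ce9_co.MixedDimBound
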